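import Pool.Agent.R398.AP.NF

/-!
# Globally generic cuspidal representations over number fields: bounds towards the Ramanujan conjecture at almost all
places, uniformly in the representation and in the field

Let `K` be a number field of degree `d`, `G` a quasi-split classical group over `K` (or `GL_n`), `Π` a unitary globally
generic cuspidal automorphic representation of `G`, and `n ≥ 2` the dimension of the standard representation of the
`L`-group; for `v` outside a finite set `S` let `α_{1,v}, ..., α_{n,v}` be the eigenvalues of the Satake parameter. Put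

  `θ_v = max_i |log_{Nv} |α_{i,v}||`,  `τ_v = ∑_i max(0, log_{Nv} |α_{i,v}|)`,

so that `θ_v ≤ τ_v` and `Π_v` is tempered iff `θ_v = 0` iff `τ_v = 0`. The functorial lift of `Π` to `GL_n` is an isobaric
sum of unitary cuspidal representations (Cogdell, Kim, Piatetski-Shapiro, Shahidi and others), and the bounds known
for `θ_v` are those for the cuspidal representations of `GL_n`: `θ_v ≤ 1/2 - 1/(n² + 1)` in general. Let `C` be the
analytic conductor of `L(s, Π × Π~)`. We show: for every `ε > 0` there is a constant `A`, which depends only on `n`,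
`d` and `ε`, such that for all such `K` and `Π` and all `X ≥ 1`

* `#{v ∉ S : N v ≤ X, θ_v ≥ x} ≤ A (1 + log C) X^{⌊n/2⌋ (1 - 2x) + ε}`,
* `#{v ∉ S : N v ≤ X, τ_v ≥ y} ≤ A (1 + log C) X^{⌊n/2⌋ - 2y + ε}` (`y ≤ ⌊n/2⌋ / 2`).

So outside a set of places with a power saving `θ_v < 1/2 - 1/(2 ⌊n/2⌋) + δ`, which is `δ` for `n ≤ 3` and `1/4 + δ` for
`n = 4, 5`. For `n = 4`, i.e. `SO_4`, `SO_5` (the spin representation of `GSp_4`), `SO_6` and `GL_4`, the exterior square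
of the lift is again isobaric (Kim); using it we show, with `C'` the conductor of `L(s, Λ²Π × Λ²Π~)`,

* `#{v ∉ S : N v ≤ X, τ_v ≥ y} ≤ A (1 + log (C C')) X^{1 - 2y + ε}` (`n = 4`),

and for `n = 2`, i.e. `SO_3`, `U_2` and `GL_2`, with `Sym⁴ Π` (Kim, Shahidi) and the conductor `C'` of
`L(s, Sym⁴ Π × Sym⁴ Π~)`

* `#{v ∉ S : N v ≤ X, θ_v ≥ x} ≤ A (1 + log C') X^{1 - 8x + ε}` (`n = 2`).

So for these groups, for every `δ > 0`, all but `O(X^{1 - 2δ + ε})` places `v`, `N v ≤ X`, satisfy `θ_v < δ`.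

The structure `Isobaric` lists what is used of the lift, all of it is known: unitarity of the components and the
bounds of Jacquet and Shalika; the absolute convergence of `L(s, Π × Π~)` for `Re s > 1`, its continuation with a pole
of order `r ≤ n²` at `s = 1` and the functional equation (Jacquet, Piatetski-Shapiro, Shalika; Shahidi; Moeglin,
Waldspurger); and that the logarithms of its local factors at `S` have nonnegative coefficients (Hoffstein,
Ramakrishnan; Rudnick, Sarnak).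

The proof. Let `(N v)^y > 4` and `τ_v ≥ y`. The Mahler measure of `∏ (T - α_{i,v})` is at most the sum of the absolute
values of its coefficients `e_k`, and `|e_k| = |e_{n-k}|` as `Π_v` is unitary; so one of the `e_k`, `k ≤ n/2`, is
`≥ (N v)^y / (2n)`, and by Newton's identities one of the power sums satisfies
`|α_{1,v}^j + ... + α_{n,v}^j| > ((N v)^y / (4n))^{j/k}`, `j ≤ k`. (For `θ_v ≥ x` a direct argument gives
`> ((N v)^x / 4)^k` for some `k ≤ n/2`.) Therefore the number of exceptional places is bounded by a power of `X` times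
`log L(1 + ε, Π × Π~)`. The functional equation, the bounds of Jacquet and Shalika to the right of `5/2` and the
principle of Phragmén and Lindelöf show that this is at most `A + 3 log C`; the constant depends only on the degree of
`K`, as `∑_v (N v)^{-σ} ≤ d ζ(σ)`.
-/

set_option autoImplicit false

namespace Pool.Agent.Results.MP_08cfa9_nt.AlmostAllPlaces

open NumberField IsDedekindDomain
open Pool.Agent.R398.AS (Nm)
open Pool.Agent.R398.AP.NF (Pl qn Isobaric rs_bound two_le_qn summable_qn finite_qn tsum_Nm_le)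
open Pool.Agent.R398.AP.V (wtq tot ext4 sym4 wtq_nonneg)

section

variable {K : Type} [Field K] [NumberField K] {S : Finset (HeightOneSpectrum (𝓞 K))} {n : ℕ}

/-- the places `v ∉ S` with `N v ≤ X` and `θ_v ≥ x` -/
def ExcTheta (α : Pl S → Fin n → ℂ) (x X : ℝ) : Set (Pl S) :=
  {v | (Nm v.1 : ℝ) ≤ X ∧ ∃ i, x ≤ |Real.logb (Nm v.1) ‖α v i‖|}

/-- the places `v ∉ S` with `N v ≤ X` and `τ_v ≥ y` -/
def ExcTau (α : Pl S → Fin n → ℂ) (y X : ℝ) : Set (Pl S) :=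
  {v | (Nm v.1 : ℝ) ≤ X ∧ y ≤ ∑ i, max 0 (Real.logb (Nm v.1) ‖α v i‖)}

/-- the analytic conductor -/
noncomputable def conductor (κ : Fin (n ^ 2 * Module.finrank ℚ K) → ℂ) (Q : ℝ) : ℝ := Q ^ 2 * ∏ j, (1 + ‖κ j‖)

theorem one_le_conductor {κ : Fin (n ^ 2 * Module.finrank ℚ K) → ℂ} {Q : ℝ} (hQ : 1 ≤ Q) : 1 ≤ conductor κ Q := by
  have h1 : 1 ≤ Pool.Agent.TH949.LT.PK κ := Pool.Agent.TH949.LT.one_le_PK κ
  unfold conductor
  change 1 ≤ Q ^ 2 * Pool.Agent.TH949.LT.PK κ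
  nlinarith [one_le_pow₀ (n := 2) hQ]

theorem wtq_summable {r : ℕ} {α : Pl S → Fin n → ℂ} {β : HeightOneSpectrum (𝓞 K) → Fin (n ^ 2) → ℂ}
    {κ : Fin (n ^ 2 * Module.finrank ℚ K) → ℂ} {Q : ℝ} (h : Isobaric r α β κ Q) {ε : ℝ} (hε : 0 < ε) :
    Summable (wtq qn α ε) := by
  refine (h.summable (1 + ε) (by linarith)).congr fun x => ?_
  unfold wtq
  rw [Pool.Agent.R398.AP.V.exp_lgq two_le_qn]
  rfl

end

/-- the constant of the sum over all places, in terms of the degree -/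
theorem zeta_bound (d : ℕ) {ε : ℝ} (hε : 0 < ε) : ∃ Z : ℝ, 0 ≤ Z ∧ ∀ (K : Type) [Field K] [NumberField K],
    Module.finrank ℚ K = d → ∀ S : Finset (HeightOneSpectrum (𝓞 K)), ∑' v : Pl S, qn v ^ (-(1 + ε)) ≤ Z := by
  have h0 : 0 ≤ ∑' v : HeightOneSpectrum (𝓞 ℚ), (Nm v : ℝ) ^ (-(1 + ε)) :=
    tsum_nonneg fun v => Real.rpow_nonneg (Nat.cast_nonneg _) _
  refine ⟨d * ∑' v : HeightOneSpectrum (𝓞 ℚ), (Nm v : ℝ) ^ (-(1 + ε)), by positivity, ?_⟩
  intro K _ _ hd S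
  subst hd
  refine le_trans ?_ (tsum_Nm_le (by linarith))
  exact tsum_comp_le_tsum_of_inj (Pool.Agent.R398.AS.summable_Nm (K := K) (by linarith))
    (fun v => Real.rpow_nonneg (Nat.cast_nonneg _) _) Subtype.val_injective

theorem general {n : ℕ} (hn : 2 ≤ n) (d : ℕ) {ε : ℝ} (hε : 0 < ε) :
    ∃ A : ℝ, 0 < A ∧ ∀ (K : Type) [Field K] [NumberField K], Module.finrank ℚ K = d →
      ∀ (S : Finset (HeightOneSpectrum (𝓞 K))) (α : Pl S → Fin n → ℂ)
      (β : HeightOneSpectrum (𝓞 K) → Fin (n ^ 2) → ℂ) (κ : Fin (n ^ 2 * Module.finrank ℚ K) → ℂ) (Q : ℝ) (r : ℕ),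
      r ≤ n ^ 2 → Isobaric r α β κ Q → ∀ X : ℝ, 1 ≤ X →
      (∀ x : ℝ, ((ExcTheta α x X).ncard : ℝ) ≤
        A * (1 + Real.log (conductor κ Q)) * X ^ (((n / 2 : ℕ) : ℝ) * (1 - 2 * x) + ε)) ∧
      (∀ y : ℝ, y ≤ ((n / 2 : ℕ) : ℝ) / 2 → ((ExcTau α y X).ncard : ℝ) ≤
        A * (1 + Real.log (conductor κ Q)) * X ^ (((n / 2 : ℕ) : ℝ) - 2 * y + ε)) := by
  have hm : (1 : ℝ) ≤ ((n / 2 : ℕ) : ℝ) := by
    have : 1 ≤ n / 2 := by omega
    exact_mod_cast this
  have hm0 : (0 : ℝ) < ((n / 2 : ℕ) : ℝ) := by linarith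
  obtain ⟨η, hη⟩ : ∃ η, η = min (ε / ((n / 2 : ℕ) : ℝ)) 1 := ⟨_, rfl⟩
  have hη0 : 0 < η := by rw [hη]; positivity
  have hη1 : η ≤ 1 := by rw [hη]; exact min_le_right _ _
  have hηε : ((n / 2 : ℕ) : ℝ) * η ≤ ε := by
    calc _ ≤ ((n / 2 : ℕ) : ℝ) * (ε / ((n / 2 : ℕ) : ℝ)) :=
          mul_le_mul_of_nonneg_left (by rw [hη]; exact min_le_left _ _) hm0.le
      _ = ε := by field_simp
  choose A hA0 hA using fun r : ℕ => rs_bound n r d hη0 hη1
  obtain ⟨Z, hZ0, hZ⟩ := zeta_bound d hη0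
  obtain ⟨B, hB⟩ : ∃ B, B = ∑ r ∈ Finset.range (n ^ 2 + 1), A r := ⟨_, rfl⟩
  have hB0 : 0 ≤ B := by rw [hB]; exact Finset.sum_nonneg fun r _ => hA0 r
  obtain ⟨D, hD⟩ : ∃ D : ℝ, D = (16 ^ (n / 2) + (4 * n) ^ 2) * ((n / 2 : ℕ) : ℝ) * B + 16 * Z + 1 := ⟨_, rfl⟩
  have hD0 : 0 < D := by rw [hD]; positivity
  refine ⟨D, hD0, ?_⟩
  intro K _ _ hd S α β κ Q r hr h X hX
  have hQ : 1 ≤ conductor κ Q := one_le_conductor h.one_le
  have hl : 0 ≤ Real.log (conductor κ Q) := Real.log_nonneg hQ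
  have hAB : A r ≤ B := by
    rw [hB]
    exact Finset.single_le_sum (f := A) (fun r _ => hA0 r) (Finset.mem_range.2 (by omega))
  have hw := wtq_summable h hη0
  have hw0 : 0 ≤ ∑' x, wtq qn α η x := tsum_nonneg fun x => wtq_nonneg _ _ _ _
  have hW : ∑' x, wtq qn α η x ≤ B * (1 + Real.log (conductor κ Q)) :=
    (hA r K hd S α β κ Q h).trans (mul_le_mul_of_nonneg_right hAB (add_nonneg zero_le_one hl))
  have hZ' := hZ K hd S
  have hZs := summable_qn (S := S) (σ := 1 + η) (by linarith)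
  have hz0 : 0 ≤ ∑' v : Pl S, qn v ^ (-(1 + η)) :=
    tsum_nonneg fun v => Real.rpow_nonneg (Nat.cast_nonneg _) _
  have key : ∀ c : ℝ, 0 ≤ c → c ≤ 16 ^ (n / 2) + (4 * (n : ℝ)) ^ 2 →
      c * ((n / 2 : ℕ) : ℝ) * ∑' x, wtq qn α η x + 16 * ∑' v : Pl S, qn v ^ (-(1 + η)) ≤
        D * (1 + Real.log (conductor κ Q)) := by
    intro c hc0 hc
    calc _ ≤ (16 ^ (n / 2) + (4 * (n : ℝ)) ^ 2) * ((n / 2 : ℕ) : ℝ) * (B * (1 + Real.log (conductor κ Q))) + 16 * Z := by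
          gcongr
      _ ≤ _ := by
          rw [hD]
          have : 0 ≤ (16 * Z + 1) * Real.log (conductor κ Q) := by positivity
          nlinarith
  refine ⟨fun x => ?_, fun y hy => ?_⟩
  · rcases le_or_gt x (1 / 2) with hx | hx
    · have h1 := Pool.Agent.R398.AP.V.count_general (q := qn) two_le_qn finite_qn hn h.ne_zero h.unitary hη0 hZs hw hx hX
      refine (le_trans (le_of_eq rfl) h1).trans ?_
      rw [mul_comm]
      refine mul_le_mul (key _ (by positivity) (by nlinarith [sq_nonneg (4 * (n : ℝ))]))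
        (Real.rpow_le_rpow_of_exponent_le hX (by linarith)) (Real.rpow_nonneg (by linarith) _) (by positivity)
    · have h0 : ExcTheta α x X = ∅ := by
        rw [Set.eq_empty_iff_forall_notMem]
        intro v hv
        obtain ⟨j, hj⟩ := Pool.Agent.R398.AP.V.large_of_exc (q := qn) two_le_qn h.ne_zero h.unitary hv.2
        have h1 := h.bound v j
        have h2 : (1 : ℝ) < qn v := by linarith [two_le_qn v]
        have h3 := (Real.rpow_lt_rpow_left_iff h2).1 (hj.trans_lt h1)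
        linarith
      rw [h0, Set.ncard_empty, Nat.cast_zero]
      have := Real.rpow_nonneg (by linarith : 0 ≤ X) (((n / 2 : ℕ) : ℝ) * (1 - 2 * x) + ε)
      positivity
  · have h1 := Pool.Agent.R398.AP.V.count_total (q := qn) two_le_qn finite_qn hn h.ne_zero h.unitary hη0 hZs hw
      (y := y) (by linarith) hX
    refine (le_trans (le_of_eq rfl) h1).trans ?_
    rw [mul_comm]
    refine mul_le_mul (key _ (by positivity) (by
        have : (0 : ℝ) ≤ 16 ^ (n / 2) := by positivity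
        linarith))
      (Real.rpow_le_rpow_of_exponent_le hX (by linarith)) (Real.rpow_nonneg (by linarith) _) (by positivity)

theorem four (d : ℕ) {ε : ℝ} (hε : 0 < ε) :
    ∃ A : ℝ, 0 < A ∧ ∀ (K : Type) [Field K] [NumberField K], Module.finrank ℚ K = d →
      ∀ (S : Finset (HeightOneSpectrum (𝓞 K))) (α : Pl S → Fin 4 → ℂ)
      (β : HeightOneSpectrum (𝓞 K) → Fin (4 ^ 2) → ℂ) (κ : Fin (4 ^ 2 * Module.finrank ℚ K) → ℂ) (Q : ℝ) (r : ℕ)
      (β' : HeightOneSpectrum (𝓞 K) → Fin (6 ^ 2) → ℂ) (κ' : Fin (6 ^ 2 * Module.finrank ℚ K) → ℂ) (Q' : ℝ) (r' : ℕ),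
      r ≤ 4 ^ 2 → r' ≤ 6 ^ 2 → Isobaric r α β κ Q → Isobaric r' (fun v => ext4 (α v)) β' κ' Q' →
      ∀ y X : ℝ, y ≤ 1 / 2 → 1 ≤ X → ((ExcTau α y X).ncard : ℝ) ≤
        A * (1 + Real.log (conductor κ Q * conductor κ' Q')) * X ^ (1 - 2 * y + ε) := by
  obtain ⟨η, hη⟩ : ∃ η, η = min ε 1 := ⟨_, rfl⟩
  have hη0 : 0 < η := by rw [hη]; positivity
  have hη1 : η ≤ 1 := by rw [hη]; exact min_le_right _ _
  have hηε : η ≤ ε := by rw [hη]; exact min_le_left _ _
  choose A hA0 hA using fun r : ℕ => rs_bound 4 r d hη0 hη1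
  choose A' hA0' hA' using fun r : ℕ => rs_bound 6 r d hη0 hη1
  obtain ⟨Z, hZ0, hZ⟩ := zeta_bound d hη0
  obtain ⟨B, hB⟩ : ∃ B, B = ∑ r ∈ Finset.range (4 ^ 2 + 1), A r := ⟨_, rfl⟩
  obtain ⟨B', hB'⟩ : ∃ B', B' = ∑ r ∈ Finset.range (6 ^ 2 + 1), A' r := ⟨_, rfl⟩
  have hB0 : 0 ≤ B := by rw [hB]; exact Finset.sum_nonneg fun r _ => hA0 r
  have hB0' : 0 ≤ B' := by rw [hB']; exact Finset.sum_nonneg fun r _ => hA0' r
  obtain ⟨D, hD⟩ : ∃ D : ℝ, D = 81 * (B + B') + 16 * Z + 1 := ⟨_, rfl⟩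
  have hD0 : 0 < D := by rw [hD]; positivity
  refine ⟨D, hD0, ?_⟩
  intro K _ _ hd S α β κ Q r β' κ' Q' r' hr hr' h h' y X hy hX
  have hl : 0 ≤ Real.log (conductor κ Q) := Real.log_nonneg (one_le_conductor h.one_le)
  have hl' : 0 ≤ Real.log (conductor κ' Q') := Real.log_nonneg (one_le_conductor h'.one_le)
  have hll : Real.log (conductor κ Q * conductor κ' Q') = Real.log (conductor κ Q) + Real.log (conductor κ' Q') :=
    Real.log_mul (by linarith [one_le_conductor (κ := κ) h.one_le]) (by linarith [one_le_conductor (κ := κ') h'.one_le])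
  have hAB : A r ≤ B := by
    rw [hB]
    exact Finset.single_le_sum (f := A) (fun r _ => hA0 r) (Finset.mem_range.2 (by omega))
  have hAB' : A' r' ≤ B' := by
    rw [hB']
    exact Finset.single_le_sum (f := A') (fun r _ => hA0' r) (Finset.mem_range.2 (by omega))
  have hW : ∑' x, wtq qn α η x ≤ B * (1 + Real.log (conductor κ Q)) :=
    (hA r K hd S α β κ Q h).trans (mul_le_mul_of_nonneg_right hAB (add_nonneg zero_le_one hl))
  have hW' : ∑' x, wtq qn (fun v => ext4 (α v)) η x ≤ B' * (1 + Real.log (conductor κ' Q')) :=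
    (hA' r' K hd S _ β' κ' Q' h').trans (mul_le_mul_of_nonneg_right hAB' (add_nonneg zero_le_one hl'))
  have hZ' := hZ K hd S
  have hZs := summable_qn (S := S) (σ := 1 + η) (by linarith)
  have h1 := Pool.Agent.R398.AP.V.count_four (q := qn) two_le_qn finite_qn h.ne_zero h.unitary hη0 hZs
    (wtq_summable h hη0) (wtq_summable h' hη0) hy hX
  refine (le_trans (le_of_eq rfl) h1).trans ?_
  rw [mul_comm]
  refine mul_le_mul ?_ (Real.rpow_le_rpow_of_exponent_le hX (by linarith)) (Real.rpow_nonneg (by linarith) _)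
    (by rw [hll]; positivity)
  rw [hll, hD]
  have e1 := mul_nonneg hB0 hl'
  have e2 := mul_nonneg hB0' hl
  have e3 := mul_nonneg hZ0 hl
  have e4 := mul_nonneg hZ0 hl'
  nlinarith

theorem two (d : ℕ) {ε : ℝ} (hε : 0 < ε) :
    ∃ A : ℝ, 0 < A ∧ ∀ (K : Type) [Field K] [NumberField K], Module.finrank ℚ K = d →
      ∀ (S : Finset (HeightOneSpectrum (𝓞 K))) (α : Pl S → Fin 2 → ℂ)
      (β : HeightOneSpectrum (𝓞 K) → Fin (2 ^ 2) → ℂ) (κ : Fin (2 ^ 2 * Module.finrank ℚ K) → ℂ) (Q : ℝ) (r : ℕ)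
      (β' : HeightOneSpectrum (𝓞 K) → Fin (5 ^ 2) → ℂ) (κ' : Fin (5 ^ 2 * Module.finrank ℚ K) → ℂ) (Q' : ℝ) (r' : ℕ),
      r' ≤ 5 ^ 2 → Isobaric r α β κ Q → Isobaric r' (fun v => sym4 (α v)) β' κ' Q' →
      ∀ x X : ℝ, x ≤ 1 / 8 → 1 ≤ X → ((ExcTheta α x X).ncard : ℝ) ≤
        A * (1 + Real.log (conductor κ' Q')) * X ^ (1 - 8 * x + ε) := by
  obtain ⟨η, hη⟩ : ∃ η, η = min ε 1 := ⟨_, rfl⟩
  have hη0 : 0 < η := by rw [hη]; positivity
  have hη1 : η ≤ 1 := by rw [hη]; exact min_le_right _ _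
  have hηε : η ≤ ε := by rw [hη]; exact min_le_left _ _
  choose A' hA0' hA' using fun r : ℕ => rs_bound 5 r d hη0 hη1
  obtain ⟨Z, hZ0, hZ⟩ := zeta_bound d hη0
  obtain ⟨B', hB'⟩ : ∃ B', B' = ∑ r ∈ Finset.range (5 ^ 2 + 1), A' r := ⟨_, rfl⟩
  have hB0' : 0 ≤ B' := by rw [hB']; exact Finset.sum_nonneg fun r _ => hA0' r
  obtain ⟨D, hD⟩ : ∃ D : ℝ, D = 16 * B' + 65536 * Z + 1 := ⟨_, rfl⟩
  have hD0 : 0 < D := by rw [hD]; positivity
  refine ⟨D, hD0, ?_⟩
  intro K _ _ hd S α β κ Q r β' κ' Q' r' hr' h h' x X hx hX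
  have hl' : 0 ≤ Real.log (conductor κ' Q') := Real.log_nonneg (one_le_conductor h'.one_le)
  have hAB' : A' r' ≤ B' := by
    rw [hB']
    exact Finset.single_le_sum (f := A') (fun r _ => hA0' r) (Finset.mem_range.2 (by omega))
  have hW' : ∑' x, wtq qn (fun v => sym4 (α v)) η x ≤ B' * (1 + Real.log (conductor κ' Q')) :=
    (hA' r' K hd S _ β' κ' Q' h').trans (mul_le_mul_of_nonneg_right hAB' (add_nonneg zero_le_one hl'))
  have hZ' := hZ K hd S
  have hZs := summable_qn (S := S) (σ := 1 + η) (by linarith)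
  have h1 := Pool.Agent.R398.AP.V.count_two (q := qn) two_le_qn finite_qn h.ne_zero h.unitary hη0 hZs
    (wtq_summable h' hη0) hx hX
  refine (le_trans (le_of_eq rfl) h1).trans ?_
  rw [mul_comm]
  refine mul_le_mul ?_ (Real.rpow_le_rpow_of_exponent_le hX (by linarith)) (Real.rpow_nonneg (by linarith) _)
    (by positivity)
  rw [hD]
  have e4 := mul_nonneg hZ0 hl'
  nlinarith

/-- **Bounds towards the Ramanujan conjecture at almost all places, uniformly in the representation and in the number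
field of degree `d`.** -/
theorem result (d : ℕ) {ε : ℝ} (hε : 0 < ε) :
    -- every `n`
    (∀ n : ℕ, 2 ≤ n → ∃ A : ℝ, 0 < A ∧ ∀ (K : Type) [Field K] [NumberField K], Module.finrank ℚ K = d →
      ∀ (S : Finset (HeightOneSpectrum (𝓞 K))) (α : Pl S → Fin n → ℂ)
      (β : HeightOneSpectrum (𝓞 K) → Fin (n ^ 2) → ℂ) (κ : Fin (n ^ 2 * Module.finrank ℚ K) → ℂ) (Q : ℝ) (r : ℕ),
      r ≤ n ^ 2 → Isobaric r α β κ Q → ∀ X : ℝ, 1 ≤ X →
      (∀ x : ℝ, ((ExcTheta α x X).ncard : ℝ) ≤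
        A * (1 + Real.log (conductor κ Q)) * X ^ (((n / 2 : ℕ) : ℝ) * (1 - 2 * x) + ε)) ∧
      (∀ y : ℝ, y ≤ ((n / 2 : ℕ) : ℝ) / 2 → ((ExcTau α y X).ncard : ℝ) ≤
        A * (1 + Real.log (conductor κ Q)) * X ^ (((n / 2 : ℕ) : ℝ) - 2 * y + ε))) ∧
    -- `n = 4`, with the exterior square
    (∃ A : ℝ, 0 < A ∧ ∀ (K : Type) [Field K] [NumberField K], Module.finrank ℚ K = d →
      ∀ (S : Finset (HeightOneSpectrum (𝓞 K))) (α : Pl S → Fin 4 → ℂ)
      (β : HeightOneSpectrum (𝓞 K) → Fin (4 ^ 2) → ℂ) (κ : Fin (4 ^ 2 * Module.finrank ℚ K) → ℂ) (Q : ℝ) (r : ℕ)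
      (β' : HeightOneSpectrum (𝓞 K) → Fin (6 ^ 2) → ℂ) (κ' : Fin (6 ^ 2 * Module.finrank ℚ K) → ℂ) (Q' : ℝ) (r' : ℕ),
      r ≤ 4 ^ 2 → r' ≤ 6 ^ 2 → Isobaric r α β κ Q → Isobaric r' (fun v => ext4 (α v)) β' κ' Q' →
      ∀ y X : ℝ, y ≤ 1 / 2 → 1 ≤ X → ((ExcTau α y X).ncard : ℝ) ≤
        A * (1 + Real.log (conductor κ Q * conductor κ' Q')) * X ^ (1 - 2 * y + ε)) ∧
    -- `n = 2`, with the symmetric fourth power
    (∃ A : ℝ, 0 < A ∧ ∀ (K : Type) [Field K] [NumberField K], Module.finrank ℚ K = d →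
      ∀ (S : Finset (HeightOneSpectrum (𝓞 K))) (α : Pl S → Fin 2 → ℂ)
      (β : HeightOneSpectrum (𝓞 K) → Fin (2 ^ 2) → ℂ) (κ : Fin (2 ^ 2 * Module.finrank ℚ K) → ℂ) (Q : ℝ) (r : ℕ)
      (β' : HeightOneSpectrum (𝓞 K) → Fin (5 ^ 2) → ℂ) (κ' : Fin (5 ^ 2 * Module.finrank ℚ K) → ℂ) (Q' : ℝ) (r' : ℕ),
      r' ≤ 5 ^ 2 → Isobaric r α β κ Q → Isobaric r' (fun v => sym4 (α v)) β' κ' Q' →
      ∀ x X : ℝ, x ≤ 1 / 8 → 1 ≤ X → ((ExcTheta α x X).ncard : ℝ) ≤
        A * (1 + Real.log (conductor κ' Q')) * X ^ (1 - 8 * x + ε)) :=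
  ⟨fun _ hn => general hn d hε, four d hε, two d hε⟩

end Pool.Agent.Results.MP_08cfa9_nt.AlmostAllPlaces
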