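import Pool.Agent.R314.SX.Iso4

/-!
# Globally generic representations of classical groups: small traces at every scale

A globally generic cuspidal representation of a quasi-split classical group over `ℚ` lifts to an isobaric sum
`Π = π_1 ⊞ ... ⊞ π_d` of unitary cuspidal representations of general linear groups, which is in general not cuspidal.
More generally let `Π = c_1 π_1 ⊞ ... ⊞ c_r π_r`, `c_i ≥ 1`, with unitary cuspidal `π_i`, no two of which are twists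
of each other by a power of `|det|`, and put `d = c_1² + ... + c_r²`, the order of the pole of `L(s, Π × Π~)` at
`s = 1`. Let `α_{1,p}, ..., α_{n,p}` be the Satake parameters of `Π` at the primes `p ∉ S`. The mean of
`|α_{1,p} + ... + α_{n,p}|²` over the primes is `d`. We show: for every `c < 1/2`, every `λ > 0` and all large `X`

  `∑_{X^{1-λ} ≤ p^k ≤ X} max(0, d - |α_{1,p}^k + ... + α_{n,p}^k|²) ≥ X^c`

and at least `X^c` primes `p ≤ X` have `|α_{1,p}^k + ... + α_{n,p}^k|² < d` for some `k ≥ 1`. If `Π` violates the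
Ramanujan conjecture the same holds

* for `c < 2 |log_p |α_{i,p}||`, `p ∉ S`, and for `c < x` if `x` is a real pole of the local factor of `L(s, Π × Π~)`
  at some place `v ≤ ∞` (for tempered `Π_v` all poles have real part `≤ 0`);
* for `c < Re ρ` if `ρ` is a zero or a pole of `L(s, Π × Π~) / ζ(s)^d`;

and if moreover `c ≥ 1/2` then at least `X^c` primes `p` in `[X^{1-λ}, X]` satisfy `|α_{1,p} + ... + α_{n,p}|² < d`,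
for all large `X`. So if at some sequence of `X → ∞` there are fewer than `X^c` such primes, all the exponents of `Π`
are at most `c / 2`. The case `r = 1`, `c_1 = 1` is `TemperedEveryScale`.
-/

set_option autoImplicit false

namespace Pool.Agent.Results.MP_08cfa9_nt.IsobaricEveryScale

open Filter Topology

/-- The primes outside `S`. -/
abbrev P' (S : Finset Nat.Primes) : Type := {p : Nat.Primes // p ∉ S}

/-- `log L^S(s, Π × Π~)`, where `α p` are the Satake parameters of `Π` at `p ∉ S`. -/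
noncomputable def logL {S : Finset Nat.Primes} {n : ℕ} (α : P' S → Fin n → ℂ) (s : ℂ) : ℂ :=
  ∑' x : P' S × ℕ, ((‖∑ i, α x.1 i ^ (x.2 + 1)‖ ^ 2 / ((x.2 : ℝ) + 1) : ℝ) : ℂ) *
    (((x.1.1 : ℕ) : ℂ) ^ (-s)) ^ (x.2 + 1)

/-- The isobaric sum `Π` of unitary cuspidal representations `π_i` of general linear groups over `ℚ` with
multiplicities `c_i`, `d = ∑ c_i²`, no two of the `π_i` being twists of each other by a power of `|det|`. `Π` is a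
representation of `GL_n`, unramified outside the finite set `S` of primes, with Satake parameters `α_{i,p}`; the
factor of `L(s, Π × Π~)` at `p ∈ S` is `∏_i (1 - β_{p,i} p^{-s})⁻¹`, the factor at the real place
`Γ_ℝ(s)^d ∏_j Γ_ℝ(s + κ_j)`. -/
structure IsobaricSum (S : Finset Nat.Primes) (d : ℕ) {n : ℕ} (α : P' S → Fin n → ℂ)
    (β : Nat.Primes → Fin (n ^ 2) → ℂ) (κ : Fin (n ^ 2 - d) → ℂ) : Prop where
  /-- the Satake parameters are nonzero -/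
  ne_zero : ∀ p i, α p i ≠ 0
  /-- `Π_p` is unitary -/
  unitary : ∀ p, ∃ τ : Equiv.Perm (Fin n), ∀ i, α p (τ i) = ((starRingEnd ℂ) (α p i))⁻¹
  /-- `Π_∞` is unitary -/
  conj : Multiset.map (fun j => (starRingEnd ℂ) (κ j)) Finset.univ.val = Multiset.map κ Finset.univ.val
  /-- absolute convergence of `log L(s, Π × Π~)` for `Re s > 1` -/
  summable : ∀ σ : ℝ, 1 < σ → Summable fun x : P' S × ℕ =>
    ‖∑ i, α x.1 i ^ (x.2 + 1)‖ ^ 2 / ((x.2 : ℝ) + 1) * (((x.1.1 : ℕ) : ℝ) ^ (-σ)) ^ (x.2 + 1)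
  /-- `L(s, Π × Π~) = G(s) / (s - 1)^d` with `G` entire, of polynomial growth in vertical strips; the completed
  function `Ξ(s) = (s (s - 1))^d Q^s Γ_ℝ(s)^d ∏ Γ_ℝ(s + κ_j) L(s, Π × Π~)` is entire and `Ξ(1 - s) = ω Ξ(s)` -/
  continuation : ∃ (G Ξ : ℂ → ℂ) (Q : ℝ) (ω : ℂ), Differentiable ℂ G ∧ Differentiable ℂ Ξ ∧ 0 < Q ∧ ω ≠ 0 ∧
    (∀ s : ℂ, 1 < s.re → G s * ∏ p ∈ S, ∏ i, (1 - β p i * ((p : ℕ) : ℂ) ^ (-s)) =
      (s - 1) ^ d * Complex.exp (logL α s)) ∧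
    (∀ a b : ℝ, ∃ C A : ℝ, ∀ s : ℂ, a ≤ s.re → s.re ≤ b → ‖G s‖ ≤ C * (1 + |s.im|) ^ A) ∧
    (∀ s : ℂ, 1 < s.re → Ξ s = s ^ d * G s *
      ((Q : ℂ) ^ s * Complex.Gammaℝ s ^ d * ∏ j, Complex.Gammaℝ (s + κ j))) ∧
    ∀ s : ℂ, Ξ (1 - s) = ω * Ξ s

/-- `ρ` is a zero or a pole of `L^S(s, Π × Π~) / ζ^S(s)^d`. -/
def Singularity {S : Finset Nat.Primes} (d : ℕ) {n : ℕ} (α : P' S → Fin n → ℂ) (ρ : ℂ) : Prop :=
  ∃ F : ℂ → ℂ, MeromorphicOn F Set.univ ∧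
    (∀ s : ℂ, 1 < s.re → F s * (riemannZeta s * ∏ p ∈ S, (1 - ((p : ℕ) : ℂ) ^ (-s))) ^ d = Complex.exp (logL α s)) ∧
    meromorphicOrderAt F ρ ≠ 0

/-- The admissible exponents: below `1/2`, below a real pole of a local factor of `L(s, Π × Π~)`, or below the real
part of a zero or pole of `L^S(s, Π × Π~) / ζ^S(s)^d`. -/
def Exponent {S : Finset Nat.Primes} (d : ℕ) {n : ℕ} (α : P' S → Fin n → ℂ) (β : Nat.Primes → Fin (n ^ 2) → ℂ)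
    (κ : Fin (n ^ 2 - d) → ℂ) (c : ℝ) : Prop :=
  c < 1 / 2 ∨
  (∃ (p : P' S) (i : Fin n), c < 2 * |Real.logb ((p.1 : ℕ) : ℝ) ‖α p i‖|) ∨
  (∃ p ∈ S, ∃ (i : Fin (n ^ 2)) (x : ℝ), β p i = ((p : ℕ) : ℂ) ^ (x : ℂ) ∧ c < x) ∨
  (∃ (j : Fin (n ^ 2 - d)) (x : ℝ), κ j = -(x : ℂ) ∧ c < x) ∨
  ∃ ρ : ℂ, c < ρ.re ∧ Singularity d α ρ

open scoped Classical in
/-- **Small traces of isobaric sums at every scale.** -/
theorem result {S : Finset Nat.Primes} {n d : ℕ} (hd : 1 ≤ d) (hdn : d < n ^ 2) {α : P' S → Fin n → ℂ}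
    {β : Nat.Primes → Fin (n ^ 2) → ℂ} {κ : Fin (n ^ 2 - d) → ℂ} (h : IsobaricSum S d α β κ) {δ : ℝ} (hδ : 0 < δ) :
    (∀ c : ℝ, Exponent d α β κ c →
      (∀ᶠ X : ℝ in atTop, X ^ c ≤ ∑' x : P' S × ℕ,
        if X ^ (1 - δ) ≤ ((x.1.1 : ℕ) : ℝ) ^ (x.2 + 1) ∧ ((x.1.1 : ℕ) : ℝ) ^ (x.2 + 1) ≤ X then
          max 0 ((d : ℝ) - ‖∑ i, α x.1 i ^ (x.2 + 1)‖ ^ 2) else 0) ∧
      (∀ᶠ X : ℝ in atTop, X ^ c ≤ (({p : P' S | ((p.1 : ℕ) : ℝ) ≤ X ∧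
        ∃ k : ℕ, ‖∑ i, α p i ^ (k + 1)‖ ^ 2 < d}.ncard : ℕ) : ℝ)) ∧
      (1 / 2 ≤ c → ∀ᶠ X : ℝ in atTop, X ^ c ≤ ∑' p : P' S,
        if X ^ (1 - δ) ≤ ((p.1 : ℕ) : ℝ) ∧ ((p.1 : ℕ) : ℝ) ≤ X then
          max 0 ((d : ℝ) - ‖∑ i, α p i‖ ^ 2) else 0) ∧
      (1 / 2 ≤ c → ∀ᶠ X : ℝ in atTop, X ^ c ≤ (({p : P' S | X ^ (1 - δ) ≤ ((p.1 : ℕ) : ℝ) ∧
        ((p.1 : ℕ) : ℝ) ≤ X ∧ ‖∑ i, α p i‖ ^ 2 < d}.ncard : ℕ) : ℝ))) ∧
    (∀ c : ℝ, 1 / 2 ≤ c → (∃ᶠ X : ℝ in atTop, (({p : P' S | X ^ (1 - δ) ≤ ((p.1 : ℕ) : ℝ) ∧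
        ((p.1 : ℕ) : ℝ) ≤ X ∧ ‖∑ i, α p i‖ ^ 2 < d}.ncard : ℕ) : ℝ) < X ^ c) →
      (∀ (p : P' S) (i : Fin n), |Real.logb ((p.1 : ℕ) : ℝ) ‖α p i‖| ≤ c / 2) ∧
      (∀ p ∈ S, ∀ (i : Fin (n ^ 2)) (x : ℝ), β p i = ((p : ℕ) : ℂ) ^ (x : ℂ) → x ≤ c) ∧
      (∀ (j : Fin (n ^ 2 - d)) (x : ℝ), κ j = -(x : ℂ) → x ≤ c) ∧
      ∀ ρ : ℂ, Singularity d α ρ → ρ.re ≤ c) := by
  have h' : Pool.Agent.R314.SX.IsobaricRep S d α β κ := ⟨h.ne_zero, h.unitary, h.conj, h.summable, h.continuation⟩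
  have key : ∀ c : ℝ, Exponent d α β κ c →
      (∀ᶠ X : ℝ in atTop, X ^ c ≤ ∑' x : P' S × ℕ,
        if X ^ (1 - δ) ≤ ((x.1.1 : ℕ) : ℝ) ^ (x.2 + 1) ∧ ((x.1.1 : ℕ) : ℝ) ^ (x.2 + 1) ≤ X then
          max 0 ((d : ℝ) - ‖∑ i, α x.1 i ^ (x.2 + 1)‖ ^ 2) else 0) ∧
      (∀ᶠ X : ℝ in atTop, X ^ c ≤ (({p : P' S | ((p.1 : ℕ) : ℝ) ≤ X ∧
        ∃ k : ℕ, ‖∑ i, α p i ^ (k + 1)‖ ^ 2 < d}.ncard : ℕ) : ℝ)) ∧
      (1 / 2 ≤ c → ∀ᶠ X : ℝ in atTop, X ^ c ≤ ∑' p : P' S,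
        if X ^ (1 - δ) ≤ ((p.1 : ℕ) : ℝ) ∧ ((p.1 : ℕ) : ℝ) ≤ X then
          max 0 ((d : ℝ) - ‖∑ i, α p i‖ ^ 2) else 0) ∧
      (1 / 2 ≤ c → ∀ᶠ X : ℝ in atTop, X ^ c ≤ (({p : P' S | X ^ (1 - δ) ≤ ((p.1 : ℕ) : ℝ) ∧
        ((p.1 : ℕ) : ℝ) ≤ X ∧ ‖∑ i, α p i‖ ^ 2 < d}.ncard : ℕ) : ℝ)) := by
    intro c hc
    refine Pool.Agent.R314.SX.iso_final hd hdn h' (c := c) ?_ hδ
    rcases hc with h1 | h1 | h1 | h1 | ⟨ρ, h1, F, h2, h3, h4⟩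
    · exact Or.inl h1
    · exact Or.inr (Or.inl h1)
    · exact Or.inr (Or.inr (Or.inl h1))
    · exact Or.inr (Or.inr (Or.inr (Or.inl h1)))
    · exact Or.inr (Or.inr (Or.inr (Or.inr ⟨F, ρ, h2, h3, h1, h4⟩)))
  refine ⟨key, fun c hc2 hfr => ?_⟩
  have hno : ¬ Exponent d α β κ c := fun hc => hfr (((key c hc).2.2.2 hc2).mono fun X hX => not_lt.2 hX)
  refine ⟨fun p i => ?_, fun p hp i x hx => ?_, fun j x hx => ?_, fun ρ hρ => ?_⟩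
  · by_contra hcon
    push Not at hcon
    exact hno (Or.inr (Or.inl ⟨p, i, by linarith⟩))
  · by_contra hcon
    push Not at hcon
    exact hno (Or.inr (Or.inr (Or.inl ⟨p, hp, i, x, hx, hcon⟩)))
  · by_contra hcon
    push Not at hcon
    exact hno (Or.inr (Or.inr (Or.inr (Or.inl ⟨j, x, hx, hcon⟩))))
  · by_contra hcon
    push Not at hcon
    exact hno (Or.inr (Or.inr (Or.inr (Or.inr ⟨ρ, hcon, hρ⟩))))

end Pool.Agent.Results.MP_08cfa9_nt.IsobaricEveryScale
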