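import Pool.Agent.R314.SX.NF4

/-!
# Globally generic representations over number fields: violations of the Ramanujan conjecture at any place force small
traces at every scale

A globally generic cuspidal representation of a quasi-split classical group over the number field `K` lifts to an
isobaric sum `Π = c_1 π_1 ⊞ ... ⊞ c_r π_r` of unitary cuspidal representations of general linear groups over `K`; let
`Π` be a representation of `GL_n`, with Satake parameters `α_{1,v}, ..., α_{n,v}` at the finite places `v ∉ S`, and let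
`d = c_1² + ... + c_r²` be the order of the pole of `L(s, Π × Π~)` at `s = 1`; the mean of
`|α_{1,v} + ... + α_{n,v}|²` over the places is `d`. Let `c ≥ 1/2` be such that `ζ_K(s)` has no real zeros in `(c, 1)`.
We show: if `Π` violates the Ramanujan conjecture by more than `c / 2` at some place, i.e. if

* `c < 2 |log_{q_v} |α_{i,v}||` for some finite `v ∉ S` and some `i`, or
* `c < x` for a real pole `x` of the local factor of `L(s, Π × Π~)` at some place `v ∈ S` or `v ∣ ∞` (if `Π_v` is
  tempered all poles have real part `≤ 0`; for a Langlands parameter `μ` at an infinite place the factor has a real pole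
  at `2 |Re μ|`), or
* `c < Re ρ` for a zero or pole `ρ` of `L(s, Π × Π~) / ζ_K(s)^d`,

then for every `δ > 0` and **all** large `X` there are at least `X^c` places `v` with `q_v ∈ [X^{1-δ}, X]` and
`|α_{1,v} + ... + α_{n,v}|² < d`, and the sum of `d - |α_{1,v} + ... + α_{n,v}|²` over them is at least `X^c`. So if for
arbitrarily large `X` there are fewer than `X^c` of them, all the exponents of `Π`, at all places, are at most `c / 2`.

For `K = ℚ` this is part of `IsobaricEveryScale`, for `n = 3`, `d = 1` and any `K` see `TemperedEveryScaleGL3` (which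
uses that the adjoint `L`-function is holomorphic; there are only the trivial exponents `c < 1/2` and those of the
complex zeros and poles). For `K ≠ ℚ` and general `n` nothing of the kind was known; places of `K` of degree `≥ 2`
over `ℚ` and powers of places are too few to matter, as `c ≥ 1/2`. With the base change of `Π` to a solvable extension
`M / K` one gets the same for the places which split completely in `M`.
-/

set_option autoImplicit false

namespace Pool.Agent.Results.MP_08cfa9_nt.NumberFieldsEveryScale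

open NumberField IsDedekindDomain Filter
open Pool.Agent.R314.SX (RepNF NAdm NSing)
open Pool.Agent.TH861.GL3 (PL qq)

open scoped Classical in
/-- **Small traces of isobaric sums over number fields at every scale.** -/
theorem result {K : Type*} [Field K] [NumberField K] {S : Finset (HeightOneSpectrum (𝓞 K))} {n d N : ℕ} (hd : 1 ≤ d)
    {α : PL S → Fin n → ℂ} {β : HeightOneSpectrum (𝓞 K) → Fin (n ^ 2) → ℂ} {κ : Fin N → ℂ} {Z : ℂ → ℂ}
    (h : RepNF S d α β κ Z) {c : ℝ} (hc2 : 1 / 2 ≤ c) (hz : ∀ x : ℝ, c < x → x < 1 → Z (x : ℂ) ≠ 0) {δ : ℝ}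
    (hδ : 0 < δ) :
    (NAdm S d α β κ c →
      (∀ᶠ X : ℝ in atTop, X ^ c ≤ ∑' v : PL S,
        if X ^ (1 - δ) ≤ (qq v.1 : ℝ) ∧ (qq v.1 : ℝ) ≤ X then max 0 ((d : ℝ) - ‖∑ i, α v i‖ ^ 2) else 0) ∧
      (∀ᶠ X : ℝ in atTop, X ^ c ≤ (({v : PL S | (X ^ (1 - δ) ≤ (qq v.1 : ℝ) ∧ (qq v.1 : ℝ) ≤ X) ∧
        ‖∑ i, α v i‖ ^ 2 < d}.ncard : ℕ) : ℝ))) ∧
    ((∃ᶠ X : ℝ in atTop, (({v : PL S | (X ^ (1 - δ) ≤ (qq v.1 : ℝ) ∧ (qq v.1 : ℝ) ≤ X) ∧
        ‖∑ i, α v i‖ ^ 2 < d}.ncard : ℕ) : ℝ) < X ^ c) →
      (∀ (v : PL S) (i : Fin n), |Real.logb (qq v.1 : ℝ) ‖α v i‖| ≤ c / 2) ∧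
      (∀ v ∈ S, ∀ (i : Fin (n ^ 2)) (x : ℝ), β v i = ((qq v : ℕ) : ℂ) ^ (x : ℂ) → x ≤ c) ∧
      (∀ (j : Fin N) (x : ℝ), κ j = -(x : ℂ) → x ≤ c) ∧
      ∀ ρ : ℂ, NSing d α ρ → ρ.re ≤ c) := by
  refine ⟨fun hadm => ⟨Pool.Agent.R314.SX.nf_windows h hc2 hz hadm hδ,
    Pool.Agent.R314.SX.nf_count hd h hc2 hz hadm hδ⟩, fun hfr => ?_⟩
  have hno : ¬ NAdm S d α β κ c := fun hadm =>
    hfr ((Pool.Agent.R314.SX.nf_count hd h hc2 hz hadm hδ).mono fun X hX => not_lt.2 hX)
  refine ⟨fun v i => ?_, fun v hv i x hx => ?_, fun j x hx => ?_, fun ρ hρ => ?_⟩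
  · by_contra hcon
    push Not at hcon
    exact hno (Or.inl ⟨v, i, by linarith⟩)
  · by_contra hcon
    push Not at hcon
    exact hno (Or.inr (Or.inl ⟨v, hv, i, x, hx, hcon⟩))
  · by_contra hcon
    push Not at hcon
    exact hno (Or.inr (Or.inr (Or.inl ⟨j, x, hx, hcon⟩)))
  · by_contra hcon
    push Not at hcon
    exact hno (Or.inr (Or.inr (Or.inr ⟨ρ, hcon, hρ⟩)))

end Pool.Agent.Results.MP_08cfa9_nt.NumberFieldsEveryScale
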