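import Pool.Agent.R314.SX.NF4

/-!
# Globally generic representations over number fields: the violations of the Ramanujan conjecture seen by the traces are
bounded, at every scale, by the small traces

Let `Π = c_1 π_1 ⊞ ... ⊞ c_r π_r` be an isobaric sum of unitary cuspidal representations of general linear groups over
the number field `K` (for instance the lift to `GL_n` of a globally generic cuspidal representation of a quasi-split
classical group over `K`), with Satake parameters `α_{1,v}, ..., α_{n,v}` at the finite places `v ∉ S`, let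
`a_v = α_{1,v} + ... + α_{n,v}` and let `d = c_1² + ... + c_r²` be the order of the pole of `L(s, Π × Π~)` at `s = 1`,
the mean of `|a_v|²`. Let `c ≥ 1/2` be such that `ζ_K(s)` has no real zeros in `(c, 1)`. We show for every `ε > 0` and
**all** large `X`:

  `∑_{q_v ≤ X} max(0, |a_v|² - d) ≤ X^ε (∑_{q_v ≤ X^{1+ε}} max(0, d - |a_v|²) + X^c)`,

and so `(B² - d) #{v : q_v ≤ X, |a_v| ≥ B} ≤ X^ε (#{v : q_v ≤ X^{1+ε}, |a_v|² < d} + X^c)` for `B² ≥ d`, up to the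
factor `d` which is absorbed by `X^ε`; if `Π_v` is tempered then `|a_v| ≤ n`, so for `B > n` one counts places at which
the Ramanujan conjecture is violated. If `Π` violates the conjecture by more than `c / 2` at some place (or if
`L(s, Π × Π~) / ζ_K(s)^d` has a zero or a pole of real part `> c`), then the terms `X^c` can be left out: the places
with large traces are never polynomially more numerous than the places with small traces.

For `K = ℚ` see `ExcessEveryScale` (there `c` does not occur, but prime powers do), for `n = 3` `TemperedMajority` of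
`MP_8410ab_nt`. `NumberFieldsEveryScale` bounds the number of the small traces from below, in case of a violation, but
does not compare it with the number of the large ones.
-/

set_option autoImplicit false

namespace Pool.Agent.Results.MP_08cfa9_nt.NumberFieldsExcess

open NumberField IsDedekindDomain Filter
open Pool.Agent.R314.SX (RepNF NAdm NSing qq_le_fin sum_le_count)
open Pool.Agent.TH861.GL3 (PL qq)

open scoped Classical in
/-- **The excess of the traces is bounded by the small traces, at every scale, over number fields.** -/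
theorem result {K : Type*} [Field K] [NumberField K] {S : Finset (HeightOneSpectrum (𝓞 K))} {n d N : ℕ} (hd : 1 ≤ d)
    {α : PL S → Fin n → ℂ} {β : HeightOneSpectrum (𝓞 K) → Fin (n ^ 2) → ℂ} {κ : Fin N → ℂ} {Z : ℂ → ℂ}
    (h : RepNF S d α β κ Z) {c : ℝ} (hc2 : 1 / 2 ≤ c) (hz : ∀ x : ℝ, c < x → x < 1 → Z (x : ℂ) ≠ 0) {ε : ℝ}
    (hε : 0 < ε) :
    (∀ᶠ X : ℝ in atTop, (∑' v : PL S, if (qq v.1 : ℝ) ≤ X then max 0 (‖∑ i, α v i‖ ^ 2 - d) else 0) ≤
      X ^ ε * ((∑' v : PL S, if (qq v.1 : ℝ) ≤ X ^ (1 + ε) then max 0 ((d : ℝ) - ‖∑ i, α v i‖ ^ 2) else 0) +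
        X ^ c)) ∧
    (∀ᶠ X : ℝ in atTop, (∑' v : PL S, if (qq v.1 : ℝ) ≤ X then max 0 (‖∑ i, α v i‖ ^ 2 - d) else 0) ≤
      X ^ ε * ((({v : PL S | (qq v.1 : ℝ) ≤ X ^ (1 + ε) ∧ ‖∑ i, α v i‖ ^ 2 < d}.ncard : ℕ) : ℝ) + X ^ c)) ∧
    (∀ B : ℝ, 0 ≤ B → d ≤ B ^ 2 → ∀ᶠ X : ℝ in atTop,
      (B ^ 2 - d) * (({v : PL S | (qq v.1 : ℝ) ≤ X ∧ B ≤ ‖∑ i, α v i‖}.ncard : ℕ) : ℝ) ≤
      X ^ ε * ((({v : PL S | (qq v.1 : ℝ) ≤ X ^ (1 + ε) ∧ ‖∑ i, α v i‖ ^ 2 < d}.ncard : ℕ) : ℝ) + X ^ c)) ∧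
    (NAdm S d α β κ c →
      (∀ᶠ X : ℝ in atTop, (∑' v : PL S, if (qq v.1 : ℝ) ≤ X then max 0 (‖∑ i, α v i‖ ^ 2 - d) else 0) ≤
        X ^ ε * (({v : PL S | (qq v.1 : ℝ) ≤ X ^ (1 + ε) ∧ ‖∑ i, α v i‖ ^ 2 < d}.ncard : ℕ) : ℝ)) ∧
      (∀ B : ℝ, 0 ≤ B → d ≤ B ^ 2 → ∀ᶠ X : ℝ in atTop,
        (B ^ 2 - d) * (({v : PL S | (qq v.1 : ℝ) ≤ X ∧ B ≤ ‖∑ i, α v i‖}.ncard : ℕ) : ℝ) ≤
        X ^ ε * (({v : PL S | (qq v.1 : ℝ) ≤ X ^ (1 + ε) ∧ ‖∑ i, α v i‖ ^ 2 < d}.ncard : ℕ) : ℝ))) ∧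
    ∀ v : PL S, (∀ i, ‖α v i‖ = 1) → ‖∑ i, α v i‖ ≤ n := by
  have hd0 : (0 : ℝ) < d := by exact_mod_cast hd
  -- the number of small traces
  set Nn : ℝ → ℝ := fun X => (({v : PL S | (qq v.1 : ℝ) ≤ X ∧ ‖∑ i, α v i‖ ^ 2 < d}.ncard : ℕ) : ℝ) with hNn
  have hN0 : ∀ X, 0 ≤ Nn X := fun X => Nat.cast_nonneg _
  have hNm : ∀ X Y : ℝ, X ≤ Y → Nn X ≤ Nn Y := fun X Y hXY => by
    refine Nat.cast_le.2 (Set.ncard_le_ncard (fun v hv => ⟨hv.1.trans hXY, hv.2⟩) ?_)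
    exact (qq_le_fin (S := S) Y).subset fun v hv => hv.1
  have hsmall : ∀ X : ℝ, (∑' v : PL S, if (qq v.1 : ℝ) ≤ X then max 0 ((d : ℝ) - ‖∑ i, α v i‖ ^ 2) else 0) ≤
      d * Nn X := fun X => sum_le_count (S := S) (fun v => (qq v.1 : ℝ) ≤ X)
        (fun v => max 0 ((d : ℝ) - ‖∑ i, α v i‖ ^ 2)) (X := X) hd0.le
        (fun v => max_le hd0.le (by nlinarith [sq_nonneg ‖∑ i, α v i‖])) (fun v => ‖∑ i, α v i‖ ^ 2 < d)
        (fun v hv => max_le le_rfl (by linarith [not_lt.1 hv])) (fun v hv => hv)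
  have hlarge : ∀ B X : ℝ, 0 ≤ B →
      (B ^ 2 - d) * (({v : PL S | (qq v.1 : ℝ) ≤ X ∧ B ≤ ‖∑ i, α v i‖}.ncard : ℕ) : ℝ) ≤
      ∑' v : PL S, if (qq v.1 : ℝ) ≤ X then max 0 (‖∑ i, α v i‖ ^ 2 - d) else 0 := by
    intro B X hB
    have hfin : {v : PL S | (qq v.1 : ℝ) ≤ X ∧ B ≤ ‖∑ i, α v i‖}.Finite :=
      (qq_le_fin (S := S) X).subset fun v hv => hv.1
    have hs : ∑ v ∈ hfin.toFinset, (B ^ 2 - d) =
        (B ^ 2 - d) * (({v : PL S | (qq v.1 : ℝ) ≤ X ∧ B ≤ ‖∑ i, α v i‖}.ncard : ℕ) : ℝ) := by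
      rw [Finset.sum_const, Set.ncard_eq_toFinset_card _ hfin]
      simp [mul_comm]
    rw [← hs]
    have hsm : Summable fun v : PL S => if (qq v.1 : ℝ) ≤ X then max 0 (‖∑ i, α v i‖ ^ 2 - d) else 0 := by
      refine summable_of_hasFiniteSupport ((qq_le_fin (S := S) X).subset fun v hv => ?_)
      by_contra h7
      exact hv (if_neg h7)
    refine le_trans (Finset.sum_le_sum fun v hv => ?_) (hsm.sum_le_tsum hfin.toFinset fun v _ => ?_)
    · have h3 := hfin.mem_toFinset.1 hv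
      rw [if_pos h3.1]
      refine le_trans ?_ (le_max_right _ _)
      have h4 := h3.2
      nlinarith
    · split_ifs
      · exact le_max_left _ _
      · exact le_rfl
  have hpow : ∀ C η : ℝ, 0 < η → ∀ᶠ X : ℝ in atTop, C ≤ X ^ η := fun C η hη =>
    (tendsto_rpow_atTop hη).eventually_ge_atTop C
  have key : ∀ ε : ℝ, 0 < ε → ∀ᶠ X : ℝ in atTop,
      (∑' v : PL S, if (qq v.1 : ℝ) ≤ X then max 0 (‖∑ i, α v i‖ ^ 2 - d) else 0) ≤
        X ^ ε * (Nn (X ^ (1 + ε)) + X ^ c) := by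
    intro ε hε
    filter_upwards [Pool.Agent.R314.SX.nf_balance h hc2 hz (ε := ε / 2) (by positivity), hpow d (ε / 2) (by positivity),
      eventually_ge_atTop 1] with X a1 a2 a3
    have hX0 : 0 < X := by linarith
    have h1 := hsmall (X ^ (1 + ε / 2))
    have h2 : Nn (X ^ (1 + ε / 2)) ≤ Nn (X ^ (1 + ε)) :=
      hNm _ _ (Real.rpow_le_rpow_of_exponent_le a3 (by linarith))
    have h3 : X ^ (ε / 2) * X ^ (ε / 2) = X ^ ε := by
      rw [← Real.rpow_add hX0]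
      congr 1
      ring
    have h4 : 0 < X ^ (ε / 2) := by positivity
    have h5 : 0 < X ^ c := by positivity
    have h6 := hN0 (X ^ (1 + ε))
    have h7 : 1 ≤ X ^ (ε / 2) := Real.one_le_rpow a3 (by positivity)
    calc _ ≤ X ^ (ε / 2) * (_ + X ^ c) := a1
      _ ≤ X ^ (ε / 2) * (X ^ (ε / 2) * Nn (X ^ (1 + ε)) + X ^ (ε / 2) * X ^ c) := by
          refine mul_le_mul_of_nonneg_left (add_le_add (h1.trans ?_) ?_) h4.le
          · exact mul_le_mul a2 h2 (hN0 _) h4.le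
          · nlinarith
      _ = X ^ ε * (Nn (X ^ (1 + ε)) + X ^ c) := by rw [← h3]; ring
  have key2 : NAdm S d α β κ c → ∀ᶠ X : ℝ in atTop,
      (∑' v : PL S, if (qq v.1 : ℝ) ≤ X then max 0 (‖∑ i, α v i‖ ^ 2 - d) else 0) ≤ X ^ ε * Nn (X ^ (1 + ε)) := by
    intro hadm
    have hw := Pool.Agent.R314.SX.nf_count hd h hc2 hz hadm one_pos
    have h3 : Tendsto (fun X : ℝ => X ^ (1 + ε)) atTop atTop := tendsto_rpow_atTop (by linarith)
    filter_upwards [key (ε / 2) (by positivity), hpow 2 (ε / 2) (by positivity), h3.eventually hw,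
      eventually_ge_atTop 1] with X a1 a2 a3 a4
    have hX0 : 0 < X := by linarith
    have b1 : Nn (X ^ (1 + ε / 2)) ≤ Nn (X ^ (1 + ε)) :=
      hNm _ _ (Real.rpow_le_rpow_of_exponent_le a4 (by linarith))
    have b2 : X ^ c ≤ Nn (X ^ (1 + ε)) := by
      have c1 : X ^ c ≤ (X ^ (1 + ε)) ^ c := by
        rw [← Real.rpow_mul hX0.le]
        exact Real.rpow_le_rpow_of_exponent_le a4 (by nlinarith)
      refine (c1.trans a3).trans (Nat.cast_le.2 (Set.ncard_le_ncard (fun v hv => ⟨hv.1.2, hv.2⟩) ?_))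
      exact (qq_le_fin (S := S) _).subset fun v hv => hv.1
    have h3 : X ^ (ε / 2) * X ^ (ε / 2) = X ^ ε := by
      rw [← Real.rpow_add hX0]
      congr 1
      ring
    have h4 : 0 < X ^ (ε / 2) := by positivity
    have h6 := hN0 (X ^ (1 + ε))
    calc _ ≤ X ^ (ε / 2) * (Nn (X ^ (1 + ε / 2)) + X ^ c) := a1
      _ ≤ X ^ (ε / 2) * (2 * Nn (X ^ (1 + ε))) := mul_le_mul_of_nonneg_left (by linarith) h4.le
      _ ≤ X ^ (ε / 2) * (X ^ (ε / 2) * Nn (X ^ (1 + ε))) :=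
          mul_le_mul_of_nonneg_left (mul_le_mul_of_nonneg_right a2 h6) h4.le
      _ = X ^ ε * Nn (X ^ (1 + ε)) := by rw [← mul_assoc, h3]
  refine ⟨Pool.Agent.R314.SX.nf_balance h hc2 hz hε, key ε hε, fun B hB _ => ?_, fun hadm => ⟨key2 hadm, fun B hB _ => ?_⟩,
    fun v hv => ?_⟩
  · exact (key ε hε).mono fun X hX => (hlarge B X hB).trans hX
  · exact (key2 hadm).mono fun X hX => (hlarge B X hB).trans hX
  · refine (norm_sum_le _ _).trans (le_of_eq ?_)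
    rw [Finset.sum_congr rfl (fun i _ => hv i)]
    simp

end Pool.Agent.Results.MP_08cfa9_nt.NumberFieldsExcess
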